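import Pool.Agent.T2H49.PC.Asym

/-!
# Degree `O(log² n)` succeeds for planted cliques of every polynomial size

Planted clique with a planted set of mean size `k`. The polynomials are combinations of the
indicators of the cliques of two sizes `O(log n)`: the number of all cliques of one size for the
detection, and for the recovery a combination of the numbers of the cliques of the sizes `2h + 1`
and `4h + 1` through the given vertex, such that the first order fluctuation of the size of the
planted set cancels (the first coefficient of its expansion in Krawtchouk polynomials vanishes).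
-/

namespace Pool.Agent.Results.MP_d47e79_lc.LogSquaredDegree

open Filter Asymptotics Pool.Agent.T2H49.PC

/-- **Degree `O(log² n)` succeeds for planted cliques.** -/
theorem result :
    -- the posed question: every exponent `a` in `(0, 1/2)`
    (∀ a : ℝ, 0 < a → a < 1 / 2 → ∀ k : ℕ → ℝ, (∀ n, 0 ≤ k n ∧ k n ≤ n) →
      (k =Θ[atTop] fun n : ℕ => (n : ℝ) ^ a) →
      ∃ C : ℝ, 0 < C ∧ Succeeds k (fun n => ⌈C * Real.log n ^ 2⌉₊)) ∧
    -- an absolute constant works for all sizes of larger order than `log⁴ n`
    ∃ C : ℝ, 0 < C ∧ ∀ k : ℕ → ℝ, (∀ n, 0 ≤ k n ∧ k n ≤ n) →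
      ((fun n : ℕ => Real.log n ^ 4) =o[atTop] k) →
      Succeeds k (fun n => ⌈C * Real.log n ^ 2⌉₊) := by
  refine ⟨fun a ha _ k hk hka => ⟨3000, by norm_num, succeeds hk ?_⟩,
    3000, by norm_num, fun k hk hL => succeeds hk hL⟩
  have h1 : (fun n : ℕ => Real.log n ^ 4) =o[atTop] fun n : ℕ => (n : ℝ) ^ a := by
    have h2 : (fun x : ℝ => Real.log x ^ (4 : ℝ)) =o[atTop] fun x : ℝ => x ^ a :=
      isLittleO_log_rpow_rpow_atTop 4 ha
    have h3 := h2.comp_tendsto tendsto_natCast_atTop_atTop
    refine h3.congr (fun n => ?_) (fun n => rfl)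
    simp only [Function.comp]
    norm_cast
  exact h1.trans_isTheta hka.symm

end Pool.Agent.Results.MP_d47e79_lc.LogSquaredDegree
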